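import Mathlib

/-! General estimates for Riesz potentials of measures with a growth condition. -/

open MeasureTheory Filter Topology Set Metric
open scoped ENNReal

noncomputable section

namespace O3R

/-- geometric series of real powers of two, as an extended nonnegative real -/
def geo (t : ℝ) : ℝ≥0∞ := ∑' k : ℕ, ENNReal.ofReal ((2 : ℝ) ^ (-(t * k)))

theorem geo_lt_top {t : ℝ} (ht : 0 < t) : geo t < ∞ := by
  have h1 : ∀ k : ℕ, (2 : ℝ) ^ (-(t * k)) = ((2 : ℝ) ^ (-t)) ^ k := by
    intro k
    rw [← Real.rpow_natCast, ← Real.rpow_mul (by norm_num)]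
    ring_nf
  have h2 : (0 : ℝ) < (2 : ℝ) ^ (-t) := by positivity
  have h3 : (2 : ℝ) ^ (-t) < 1 := Real.rpow_lt_one_of_one_lt_of_neg (by norm_num) (by linarith)
  unfold geo
  simp_rw [h1]
  have h4 : Summable fun k : ℕ => ((2 : ℝ) ^ (-t)) ^ k := summable_geometric_of_lt_one h2.le h3
  rw [← ENNReal.ofReal_tsum_of_nonneg (fun k => by positivity) h4]
  exact ENNReal.ofReal_lt_top

variable {X : Type*} [PseudoMetricSpace X] [MeasurableSpace X] [OpensMeasurableSpace X]

/-- dyadic bound for the inner part of a Riesz potential -/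
theorem near_le {ν : Measure X} {z : X} {R a s : ℝ} {K : ℝ≥0∞} (hR : 0 < R) (ha : 0 ≤ a)
    (hs : a < s) (hK : K ≠ ∞) (h : ∀ r, 0 < r → r ≤ R → ν (ball z r) ≤ K * ENNReal.ofReal (r ^ s)) :
    ∫⁻ x in ball z R, ENNReal.ofReal (dist x z ^ (-a)) ∂ν ≤
      K * (ENNReal.ofReal (2 ^ a) * geo (s - a)) * ENNReal.ofReal (R ^ (s - a)) := by
  have hs0 : 0 < s := by linarith
  -- the centre is a null set
  have hz : ν {x | dist x z = 0} = 0 := by
    have h1 : ∀ n : ℕ, ν {x | dist x z = 0} ≤ K * ENNReal.ofReal ((R * (1 / 2) ^ n) ^ s) := by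
      intro n
      have hp : 0 < R * (1 / 2 : ℝ) ^ n := by positivity
      refine (measure_mono ?_).trans (h _ hp ?_)
      · intro x hx
        have hx : dist x z = 0 := hx
        rw [mem_ball, hx]
        exact hp
      · have : (1 / 2 : ℝ) ^ n ≤ 1 := pow_le_one₀ (by norm_num) (by norm_num)
        nlinarith
    have h2 : Tendsto (fun n : ℕ => K * ENNReal.ofReal ((R * (1 / 2 : ℝ) ^ n) ^ s)) atTop (𝓝 0) := by
      have h3 : Tendsto (fun n : ℕ => (R * (1 / 2 : ℝ) ^ n) ^ s) atTop (𝓝 0) := by
        have h4 : Tendsto (fun n : ℕ => R * (1 / 2 : ℝ) ^ n) atTop (𝓝 0) := by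
          have := (tendsto_pow_atTop_nhds_zero_of_lt_one (r := (1 / 2 : ℝ)) (by norm_num)
            (by norm_num)).const_mul R
          simpa using this
        have h5 := h4.rpow_const (p := s) (Or.inr hs0.le)
        rwa [Real.zero_rpow hs0.ne'] at h5
      have h6 := ENNReal.Tendsto.const_mul (ENNReal.tendsto_ofReal h3) (a := K) (Or.inr hK)
      simpa using h6
    exact le_antisymm (ge_of_tendsto' h2 h1) zero_le
  -- the annuli
  set A : ℕ → Set X := fun k => {x | R * (1 / 2) ^ (k + 1) ≤ dist x z ∧ dist x z < R * (1 / 2) ^ k}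
    with hA
  have hcov : ball z R ⊆ {x | dist x z = 0} ∪ ⋃ k, A k := by
    intro x hx
    rw [mem_ball] at hx
    rcases (dist_nonneg (x := x) (y := z)).eq_or_lt with h0 | h0
    · exact Or.inl h0.symm
    · right
      have hex : ∃ n : ℕ, R * (1 / 2) ^ n ≤ dist x z := by
        have h4 : Tendsto (fun n : ℕ => R * (1 / 2 : ℝ) ^ n) atTop (𝓝 0) := by
          have := (tendsto_pow_atTop_nhds_zero_of_lt_one (r := (1 / 2 : ℝ)) (by norm_num)
            (by norm_num)).const_mul R
          simpa using this
        have h5 := (h4.eventually (gt_mem_nhds h0)).exists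
        obtain ⟨n, hn⟩ := h5
        exact ⟨n, hn.le⟩
      classical
      have hfind := Nat.find_spec hex
      have hne : Nat.find hex ≠ 0 := by
        intro h6
        rw [h6] at hfind
        simp at hfind
        linarith
      obtain ⟨k, hk⟩ := Nat.exists_eq_succ_of_ne_zero hne
      rw [mem_iUnion]
      refine ⟨k, ?_, ?_⟩
      · rw [hk] at hfind
        exact hfind
      · have := Nat.find_min hex (m := k) (by omega)
        exact not_le.mp this
  have hAm : ∀ k, MeasurableSet (A k) := by
    intro k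
    have hd : Continuous fun x : X => dist x z := continuous_id.dist continuous_const
    exact (measurableSet_le measurable_const hd.measurable).inter
      (measurableSet_lt hd.measurable measurable_const)
  calc ∫⁻ x in ball z R, ENNReal.ofReal (dist x z ^ (-a)) ∂ν
      ≤ ∫⁻ x in {x | dist x z = 0} ∪ ⋃ k, A k, ENNReal.ofReal (dist x z ^ (-a)) ∂ν :=
        lintegral_mono_set hcov
    _ ≤ (∫⁻ x in {x | dist x z = 0}, ENNReal.ofReal (dist x z ^ (-a)) ∂ν) +
          ∫⁻ x in ⋃ k, A k, ENNReal.ofReal (dist x z ^ (-a)) ∂ν := lintegral_union_le _ _ _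
    _ ≤ 0 + ∑' k, ∫⁻ x in A k, ENNReal.ofReal (dist x z ^ (-a)) ∂ν := by
        refine add_le_add ?_ (lintegral_iUnion_le _ _)
        rw [Measure.restrict_eq_zero.mpr hz, lintegral_zero_measure]
    _ ≤ ∑' k : ℕ, K * ENNReal.ofReal (2 ^ a) * ENNReal.ofReal (R ^ (s - a)) *
          ENNReal.ofReal ((2 : ℝ) ^ (-((s - a) * k))) := by
        rw [zero_add]
        refine ENNReal.tsum_le_tsum fun k => ?_
        have hp : 0 < R * (1 / 2 : ℝ) ^ (k + 1) := by positivity
        have hp' : 0 < R * (1 / 2 : ℝ) ^ k := by positivity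
        calc ∫⁻ x in A k, ENNReal.ofReal (dist x z ^ (-a)) ∂ν
            ≤ ∫⁻ x in A k, ENNReal.ofReal ((R * (1 / 2) ^ (k + 1)) ^ (-a)) ∂ν := by
              refine setLIntegral_mono' (hAm k) fun x hx => ?_
              refine ENNReal.ofReal_le_ofReal ?_
              exact Real.rpow_le_rpow_of_nonpos hp hx.1 (by linarith)
          _ = ENNReal.ofReal ((R * (1 / 2) ^ (k + 1)) ^ (-a)) * ν (A k) := by
              rw [setLIntegral_const]
          _ ≤ ENNReal.ofReal ((R * (1 / 2) ^ (k + 1)) ^ (-a)) *
                (K * ENNReal.ofReal ((R * (1 / 2) ^ k) ^ s)) := by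
              gcongr
              refine (measure_mono fun x hx => ?_).trans (h _ hp' ?_)
              · exact hx.2
              · have : (1 / 2 : ℝ) ^ k ≤ 1 := pow_le_one₀ (by norm_num) (by norm_num)
                nlinarith
          _ = K * (ENNReal.ofReal ((R * (1 / 2) ^ (k + 1)) ^ (-a)) *
                ENNReal.ofReal ((R * (1 / 2) ^ k) ^ s)) := by ring
          _ = K * (ENNReal.ofReal (2 ^ a) * ENNReal.ofReal (R ^ (s - a)) *
                ENNReal.ofReal ((2 : ℝ) ^ (-((s - a) * k)))) := by
              congr 1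
              rw [← ENNReal.ofReal_mul (by positivity), ← ENNReal.ofReal_mul (by positivity),
                ← ENNReal.ofReal_mul (by positivity)]
              congr 1
              have e1 : (1 / 2 : ℝ) ^ (k + 1) = (2 : ℝ) ^ (-((k : ℝ) + 1)) := by
                rw [Real.rpow_neg (by norm_num), one_div, inv_pow, ← Real.rpow_natCast]
                push_cast
                rfl
              have e2 : (1 / 2 : ℝ) ^ k = (2 : ℝ) ^ (-(k : ℝ)) := by
                rw [Real.rpow_neg (by norm_num), one_div, inv_pow, ← Real.rpow_natCast]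
              rw [e1, e2, Real.mul_rpow hR.le (by positivity), Real.mul_rpow hR.le (by positivity),
                ← Real.rpow_mul (by norm_num), ← Real.rpow_mul (by norm_num),
                Real.rpow_sub hR, Real.rpow_neg hR.le]
              have e3 : (2 : ℝ) ^ (-((k : ℝ) + 1) * -a) * (2 : ℝ) ^ (-(k : ℝ) * s) =
                  (2 : ℝ) ^ a * (2 : ℝ) ^ (-((s - a) * k)) := by
                rw [← Real.rpow_add (by norm_num), ← Real.rpow_add (by norm_num)]
                ring_nf
              calc (R ^ a)⁻¹ * (2 : ℝ) ^ (-((k : ℝ) + 1) * -a) * (R ^ s * (2 : ℝ) ^ (-(k : ℝ) * s))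
                  = (R ^ s / R ^ a) * ((2 : ℝ) ^ (-((k : ℝ) + 1) * -a) *
                      (2 : ℝ) ^ (-(k : ℝ) * s)) := by
                    rw [div_eq_mul_inv]; ring
                _ = _ := by rw [e3]; ring
          _ = _ := by ring
    _ = _ := by
        rw [ENNReal.tsum_mul_left]
        unfold geo
        ring

/-- dyadic bound for the outer part of a Riesz potential -/
theorem far_le {ν : Measure X} {z : X} {R a s : ℝ} {K : ℝ≥0∞} (hR : 0 < R) (ha : s < a)
    (hs : 0 ≤ s)
    (h : ∀ r, R ≤ r → ν (ball z r) ≤ K * ENNReal.ofReal (r ^ s)) :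
    ∫⁻ x in (ball z R)ᶜ, ENNReal.ofReal (dist x z ^ (-a)) ∂ν ≤
      K * (ENNReal.ofReal (2 ^ s) * geo (a - s)) * ENNReal.ofReal (R ^ (s - a)) := by
  set A : ℕ → Set X := fun k => {x | R * 2 ^ k ≤ dist x z ∧ dist x z < R * 2 ^ (k + 1)}
    with hA
  have hcov : (ball z R)ᶜ ⊆ ⋃ k, A k := by
    intro x hx
    rw [mem_compl_iff, mem_ball, not_lt] at hx
    have hex : ∃ n : ℕ, dist x z < R * 2 ^ n := by
      have h4 : Tendsto (fun n : ℕ => R * (2 : ℝ) ^ n) atTop atTop :=
        (tendsto_pow_atTop_atTop_of_one_lt (by norm_num)).const_mul_atTop hR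
      exact (h4.eventually (eventually_gt_atTop (dist x z))).exists
    classical
    have hfind := Nat.find_spec hex
    have hne : Nat.find hex ≠ 0 := by
      intro h6
      rw [h6] at hfind
      simp at hfind
      linarith
    obtain ⟨k, hk⟩ := Nat.exists_eq_succ_of_ne_zero hne
    rw [mem_iUnion]
    refine ⟨k, ?_, ?_⟩
    · have := Nat.find_min hex (m := k) (by omega)
      exact not_lt.mp this
    · rw [hk] at hfind
      exact hfind
  have hAm : ∀ k, MeasurableSet (A k) := by
    intro k
    have hd : Continuous fun x : X => dist x z := continuous_id.dist continuous_const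
    exact (measurableSet_le measurable_const hd.measurable).inter
      (measurableSet_lt hd.measurable measurable_const)
  calc ∫⁻ x in (ball z R)ᶜ, ENNReal.ofReal (dist x z ^ (-a)) ∂ν
      ≤ ∫⁻ x in ⋃ k, A k, ENNReal.ofReal (dist x z ^ (-a)) ∂ν := lintegral_mono_set hcov
    _ ≤ ∑' k, ∫⁻ x in A k, ENNReal.ofReal (dist x z ^ (-a)) ∂ν := lintegral_iUnion_le _ _
    _ ≤ ∑' k : ℕ, K * ENNReal.ofReal (2 ^ s) * ENNReal.ofReal (R ^ (s - a)) *
          ENNReal.ofReal ((2 : ℝ) ^ (-((a - s) * k))) := by
        refine ENNReal.tsum_le_tsum fun k => ?_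
        have hp : 0 < R * (2 : ℝ) ^ (k + 1) := by positivity
        have hp' : 0 < R * (2 : ℝ) ^ k := by positivity
        calc ∫⁻ x in A k, ENNReal.ofReal (dist x z ^ (-a)) ∂ν
            ≤ ∫⁻ x in A k, ENNReal.ofReal ((R * 2 ^ k) ^ (-a)) ∂ν := by
              refine setLIntegral_mono' (hAm k) fun x hx => ?_
              refine ENNReal.ofReal_le_ofReal ?_
              exact Real.rpow_le_rpow_of_nonpos hp' hx.1 (by linarith)
          _ = ENNReal.ofReal ((R * 2 ^ k) ^ (-a)) * ν (A k) := by
              rw [setLIntegral_const]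
          _ ≤ ENNReal.ofReal ((R * 2 ^ k) ^ (-a)) *
                (K * ENNReal.ofReal ((R * 2 ^ (k + 1)) ^ s)) := by
              gcongr
              refine (measure_mono fun x hx => ?_).trans (h _ ?_)
              · exact hx.2
              · have : (1 : ℝ) ≤ 2 ^ (k + 1) := one_le_pow₀ (by norm_num)
                nlinarith
          _ = K * (ENNReal.ofReal ((R * 2 ^ k) ^ (-a)) *
                ENNReal.ofReal ((R * 2 ^ (k + 1)) ^ s)) := by ring
          _ = K * (ENNReal.ofReal (2 ^ s) * ENNReal.ofReal (R ^ (s - a)) *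
                ENNReal.ofReal ((2 : ℝ) ^ (-((a - s) * k)))) := by
              congr 1
              rw [← ENNReal.ofReal_mul (by positivity), ← ENNReal.ofReal_mul (by positivity),
                ← ENNReal.ofReal_mul (by positivity)]
              congr 1
              have e1 : (2 : ℝ) ^ (k + 1) = (2 : ℝ) ^ ((k : ℝ) + 1) := by
                rw [← Real.rpow_natCast]
                push_cast
                rfl
              have e2 : (2 : ℝ) ^ k = (2 : ℝ) ^ (k : ℝ) := by
                rw [← Real.rpow_natCast]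
              rw [e1, e2, Real.mul_rpow hR.le (by positivity), Real.mul_rpow hR.le (by positivity),
                ← Real.rpow_mul (by norm_num), ← Real.rpow_mul (by norm_num),
                Real.rpow_sub hR, Real.rpow_neg hR.le]
              have e3 : (2 : ℝ) ^ ((k : ℝ) * -a) * (2 : ℝ) ^ (((k : ℝ) + 1) * s) =
                  (2 : ℝ) ^ s * (2 : ℝ) ^ (-((a - s) * k)) := by
                rw [← Real.rpow_add (by norm_num), ← Real.rpow_add (by norm_num)]
                ring_nf
              calc (R ^ a)⁻¹ * (2 : ℝ) ^ ((k : ℝ) * -a) * (R ^ s * (2 : ℝ) ^ (((k : ℝ) + 1) * s))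
                  = (R ^ s / R ^ a) * ((2 : ℝ) ^ ((k : ℝ) * -a) *
                      (2 : ℝ) ^ (((k : ℝ) + 1) * s)) := by
                    rw [div_eq_mul_inv]; ring
                _ = _ := by rw [e3]; ring
          _ = _ := by ring
    _ = _ := by
        rw [ENNReal.tsum_mul_left]
        unfold geo
        ring

end O3R
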